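import Pool.Agent.Y448.FC2.FvA
import Pool.Agent.Y798.FC.Stm4

/-! FC2-FV (helper448). -/

set_option autoImplicit false

namespace Pool.Agent.Y448.FC2

open Pool.Agent.Y798.FC

theorem t : StmFV := fun _ _ d => ⟨const_sq d, single_of d⟩

end Pool.Agent.Y448.FC2
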