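import Pool.Agent.Y798.FC.Vol

/-! FC2-FV: trigonometric polynomials with finitely many absolute values (helper448). -/

set_option autoImplicit false

namespace Pool.Agent.Y448.FC2

open MeasureTheory UnitAddTorus Pool.Agent.Y139.ID Pool.Agent.Y798.FC Filter Topology ComplexConjugate

variable {J : Type} [Fintype J]

theorem const_sq (d : (J → ℤ) →₀ ℤ) (S : Finset ℝ) (h : ∀ x, ‖trig d x‖ ^ 2 ∈ S) :
    ∃ s : ℝ, ∀ x, ‖trig d x‖ ^ 2 = s := by
  have hpc : IsPreconnected (Set.univ : Set (UnitAddTorus J)) := isPreconnected_univ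
  have hc : Continuous fun x : UnitAddTorus J => ‖trig d x‖ ^ 2 := (continuous_trig d).norm.pow 2
  obtain ⟨y, -, hy⟩ := hpc.eqOn_const_of_mapsTo (T := (S : Set ℝ)) S.finite_toSet.isDiscrete hc.continuousOn
    (fun x _ => h x) ⟨_, h 0⟩
  exact ⟨y, fun x => hy (Set.mem_univ x)⟩

theorem parseval (d : (J → ℤ) →₀ ℤ) :
    ∫ x, conj (trig d x) * trig d x ∂(vol J) = ((∑ m ∈ d.support, d m ^ 2 : ℤ) : ℂ) := by
  have h1 : ∀ x, conj (trig d x) * trig d x =
      ∑ m ∈ d.support, (d m : ℂ) * (mFourier (-m) x * trig d x) := by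
    intro x
    have h2 : conj (trig d x) = ∑ m ∈ d.support, (d m : ℂ) * mFourier (-m) x := by
      unfold trig Finsupp.sum
      rw [map_sum]
      refine Finset.sum_congr rfl fun m _ => ?_
      rw [map_mul, mFourier_neg, map_intCast]
    rw [h2, Finset.sum_mul]
    exact Finset.sum_congr rfl fun m _ => by ring
  simp only [h1]
  have hct := continuous_trig d
  rw [integral_finsetSum _ fun m _ => (integrable_cont _ (by fun_prop))]
  push_cast
  refine Finset.sum_congr rfl fun m _ => ?_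
  rw [integral_const_mul, int_trig, neg_neg]
  ring

theorem single_of (d : (J → ℤ) →₀ ℤ) (h : ∀ x, ‖trig d x‖ = 1) :
    ∃ (γ : J → ℤ) (e : ℤ), (e = 1 ∨ e = -1) ∧ d = Finsupp.single γ e := by
  have h1 := parseval d
  have h2 : ∀ x, conj (trig d x) * trig d x = 1 := by
    intro x
    rw [← Complex.normSq_eq_conj_mul_self, Complex.normSq_eq_norm_sq, h x]
    simp
  simp only [h2] at h1
  rw [integral_const, probReal_univ, one_smul] at h1
  have h3 : (∑ m ∈ d.support, d m ^ 2 : ℤ) = 1 := by exact_mod_cast h1.symm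
  have h4 : ∀ m ∈ d.support, 1 ≤ d m ^ 2 := by
    intro m hm
    have h5 : d m ≠ 0 := Finsupp.mem_support_iff.1 hm
    have h6 : 0 < d m ^ 2 := by positivity
    omega
  have h5 : (d.support.card : ℤ) ≤ 1 := by
    rw [← h3]
    have := Finset.card_nsmul_le_sum d.support (fun m => d m ^ 2) 1 h4
    simpa using this
  have h6 : d.support.card ≠ 0 := by
    intro h0
    rw [Finset.card_eq_zero.1 h0, Finset.sum_empty] at h3
    exact absurd h3 (by norm_num)
  have h7 : d.support.card = 1 := by omega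
  obtain ⟨γ, hγ⟩ := Finset.card_eq_one.1 h7
  rw [hγ, Finset.sum_singleton] at h3
  refine ⟨γ, d γ, ?_, ?_⟩
  · exact sq_eq_one_iff.1 h3
  · exact (Finsupp.eq_single_iff.2 ⟨by rw [hγ], rfl⟩)

end Pool.Agent.Y448.FC2
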